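import Pool.Agent.NPG.Stmts
import Pool.Agent.Helper21_LSG.NP2
import Pool.Agent.Helper34_LSG.ZST
import Pool.Agent.Helper30_LSG.AB2

/-!
# NPG, row ST8: from the complemented power to stability
-/

set_option autoImplicit false

open MeasureTheory Set Topology

namespace Pool.Agent.NPG.H52

open Pool.Agent.LSG Pool.Agent.NPG

/-- Row ST8. -/
theorem st8 (h2 : PelStmt) (h3 : CexStmt) (h4 : CpeStmt) (h5 : BriStmt) : St8Stmt := by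
  intro X _ c1
  have c2 : Compl ↥(Cp X) (ℕ → ↥(Cp X)) := H30.compl_zero _
  obtain ⟨e⟩ := (h2 (ℕ → ↥(Cp X)) ↥(Cp X) ⟨H34.curryE ↥(Cp X)⟩).1 c1 c2
  refine ⟨?_, ?_⟩
  · obtain ⟨e3⟩ := h4.1 (X × ℕ) (Σ _ : ℕ, X) ⟨H21.homN X⟩
    obtain ⟨e4⟩ := h4.2.2.1 ℕ (fun _ => X)
    exact (h5.1 X (X × ℕ)).2 ⟨e.trans (e3.trans e4).symm⟩
  · intro A hA
    have hA1 : LEmc A := (h5.2 _ A).mp hA
    have hA2 : Compl ↥(Cp A) ↥(Cp X) := h3.1 _ A hA1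
    obtain ⟨e5⟩ := (h2 ↥(Cp X) ↥(Cp A) ⟨e⟩).2 hA2
    obtain ⟨e6⟩ := h4.2.1 X A
    exact (h5.1 _ _).mpr ⟨e5.trans e6.symm⟩

end Pool.Agent.NPG.H52
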